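import Pool.Agent.Y767.HT.Iso

/-!
The operator `T` below is copied from the starting result `HeightNotPreserved` of MP_d12f8b_an.
-/

set_option autoImplicit false

open Set Filter Topology OnePoint

namespace Pool.Agent.Y767.HT

noncomputable section

/-- The interval `[0, ω]`. -/
abbrev KA : Type := OnePoint (ℕ ⊕ ℕ × ℕ)

/-- The interval `[0, ω ^ 2]`. -/
abbrev KB : Type := OnePoint (ℕ × OnePoint ℕ)

/-- The projection of a compact set is bounded. -/
lemma exists_bound (t : Set (ℕ × OnePoint ℕ)) (ht : IsCompact t) : ∃ N, ∀ p ∈ t, p.1 < N := by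
  have h := (ht.image continuous_fst)
  have hfin := isCompact_iff_finite.1 h
  obtain ⟨N, hN⟩ := hfin.bddAbove
  exact ⟨N + 1, fun p hp => Nat.lt_succ_of_le (hN ⟨p, hp, rfl⟩)⟩

lemma KB_nhds_infty {U : Set KB} (hU : U ∈ 𝓝 (∞ : KB)) :
    ∃ N, ∀ p : ℕ × OnePoint ℕ, N ≤ p.1 → (p : KB) ∈ U := by
  rw [mem_nhds_iff] at hU
  obtain ⟨V, hVU, hV, hVm⟩ := hU
  have hc := ((OnePoint.isOpen_iff_of_mem hVm).1 hV).2
  obtain ⟨N, hN⟩ := exists_bound _ hc
  refine ⟨N, fun p hp => hVU ?_⟩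
  by_contra h
  have := hN p h
  omega

/-- The forward map. -/
def fwd (f : KA → ℝ) : KB → ℝ := fun y => y.elim (f ∞) (fun p => p.2.elim
  ((f ∞ + f ((Sum.inl p.1 : ℕ ⊕ ℕ × ℕ) : KA)) / 2)
  (fun m => (f ((Sum.inl p.1 : ℕ ⊕ ℕ × ℕ) : KA) + f ((Sum.inr (p.1, m) : ℕ ⊕ ℕ × ℕ) : KA)) / 2))

/-- The backward map. -/
def bwd (g : KB → ℝ) : KA → ℝ := fun x => x.elim (g ∞)
  (Sum.elim (fun n => 2 * g ((n, ∞) : ℕ × OnePoint ℕ) - g ∞)
    (fun p => 2 * g ((p.1, (p.2 : OnePoint ℕ)) : ℕ × OnePoint ℕ) -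
      2 * g ((p.1, ∞) : ℕ × OnePoint ℕ) + g ∞))

lemma fwd_infty (f : KA → ℝ) : fwd f ∞ = f ∞ := rfl

lemma fwd_inf (f : KA → ℝ) (n : ℕ) : fwd f ((n, ∞) : ℕ × OnePoint ℕ) =
    (f ∞ + f ((Sum.inl n : ℕ ⊕ ℕ × ℕ) : KA)) / 2 := rfl

lemma fwd_coe (f : KA → ℝ) (n m : ℕ) : fwd f ((n, (m : OnePoint ℕ)) : ℕ × OnePoint ℕ) =
    (f ((Sum.inl n : ℕ ⊕ ℕ × ℕ) : KA) + f ((Sum.inr (n, m) : ℕ ⊕ ℕ × ℕ) : KA)) / 2 := rfl

lemma bwd_infty (g : KB → ℝ) : bwd g ∞ = g ∞ := rfl

lemma bwd_inl (g : KB → ℝ) (n : ℕ) : bwd g ((Sum.inl n : ℕ ⊕ ℕ × ℕ) : KA) =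
    2 * g ((n, ∞) : ℕ × OnePoint ℕ) - g ∞ := rfl

lemma bwd_inr (g : KB → ℝ) (n m : ℕ) : bwd g ((Sum.inr (n, m) : ℕ ⊕ ℕ × ℕ) : KA) =
    2 * g ((n, (m : OnePoint ℕ)) : ℕ × OnePoint ℕ) -
      2 * g ((n, ∞) : ℕ × OnePoint ℕ) + g ∞ := rfl

lemma continuous_fwd {f : KA → ℝ} (hf : Continuous f) : Continuous (fwd f) := by
  have h0 := (OnePoint.continuous_iff_from_discrete f).1 hf
  rw [OnePoint.continuous_iff]
  constructor
  · rw [Metric.tendsto_nhds]
    intro ε hε
    rw [Metric.tendsto_nhds] at h0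
    have hfin : {z : ℕ ⊕ ℕ × ℕ | ¬ dist (f z) (f ∞) < ε}.Finite := h0 ε hε
    obtain ⟨N, hN⟩ := (hfin.image (Sum.elim id Prod.fst)).bddAbove
    rw [Filter.Eventually, hasBasis_coclosedCompact.mem_iff]
    refine ⟨(Iio (N + 1)) ×ˢ univ, ⟨(isClosed_discrete _).prod isClosed_univ,
      ((Set.finite_Iio _).isCompact).prod isCompact_univ⟩, ?_⟩
    rintro ⟨n, y⟩ hp
    have hn : N + 1 ≤ n := by
      by_contra hlt
      push Not at hlt
      exact hp ⟨hlt, mem_univ _⟩
    have h1 : dist (f ((Sum.inl n : ℕ ⊕ ℕ × ℕ) : KA)) (f ∞) < ε := by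
      by_contra h
      have : n ≤ N := hN ⟨Sum.inl n, h, rfl⟩
      omega
    have h2 : ∀ m, dist (f ((Sum.inr (n, m) : ℕ ⊕ ℕ × ℕ) : KA)) (f ∞) < ε := by
      intro m
      by_contra h
      have : n ≤ N := hN ⟨Sum.inr (n, m), h, rfl⟩
      omega
    change dist (fwd f ((n, y) : ℕ × OnePoint ℕ)) (f ∞) < ε
    rw [Real.dist_eq, abs_lt] at h1 ⊢
    induction y using OnePoint.rec with
    | infty =>
      rw [fwd_inf]
      constructor <;> linarith [h1.1, h1.2]
    | coe m =>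
      rw [fwd_coe]
      have h3 := h2 m
      rw [Real.dist_eq, abs_lt] at h3
      constructor <;> linarith [h1.1, h1.2, h3.1, h3.2]
  · rw [continuous_prod_of_discrete_left]
    intro n
    rw [OnePoint.continuous_iff_from_discrete]
    have hinj : Function.Injective (fun m : ℕ => (Sum.inr (n, m) : ℕ ⊕ ℕ × ℕ)) := by
      intro a b h
      simpa using h
    have h1 := h0.comp hinj.tendsto_cofinite
    have h2 : Tendsto (fun m : ℕ => (f ((Sum.inl n : ℕ ⊕ ℕ × ℕ) : KA) +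
        f ((Sum.inr (n, m) : ℕ ⊕ ℕ × ℕ) : KA)) / 2) cofinite
        (𝓝 ((f ((Sum.inl n : ℕ ⊕ ℕ × ℕ) : KA) + f ∞) / 2)) :=
      (tendsto_const_nhds.add h1).div_const 2
    have h3 : fwd f ((n, ∞) : ℕ × OnePoint ℕ) = (f ((Sum.inl n : ℕ ⊕ ℕ × ℕ) : KA) + f ∞) / 2 := by
      rw [fwd_inf, add_comm]
    rw [h3]
    exact h2

lemma continuous_bwd {g : KB → ℝ} (hg : Continuous g) : Continuous (bwd g) := by
  rw [OnePoint.continuous_iff_from_discrete, Metric.tendsto_nhds]
  intro ε hε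
  obtain ⟨N, hN⟩ := KB_nhds_infty (hg.continuousAt.preimage_mem_nhds
    (Metric.ball_mem_nhds (g ∞) (show 0 < ε / 4 by positivity)))
  have hsec : ∀ n : ℕ, Continuous (fun y : OnePoint ℕ => g ((n, y) : ℕ × OnePoint ℕ)) := by
    intro n
    exact hg.comp (OnePoint.continuous_coe.comp (by fun_prop))
  have hS : ∀ n : ℕ, {m : ℕ | ¬ dist (g ((n, (m : OnePoint ℕ)) : ℕ × OnePoint ℕ))
      (g ((n, ∞) : ℕ × OnePoint ℕ)) < ε / 2}.Finite := by
    intro n
    have h1 := (OnePoint.continuous_iff_from_discrete _).1 (hsec n)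
    rw [Metric.tendsto_nhds] at h1
    exact h1 (ε / 2) (by positivity)
  have hfin : ((Sum.inl '' (Iio N) : Set (ℕ ⊕ ℕ × ℕ)) ∪
      Sum.inr '' (⋃ n ∈ Iio N, (fun m => (n, m)) '' {m : ℕ | ¬ dist (g ((n, (m : OnePoint ℕ)) : ℕ × OnePoint ℕ))
      (g ((n, ∞) : ℕ × OnePoint ℕ)) < ε / 2})).Finite := by
    apply Set.Finite.union
    · exact (Set.finite_Iio N).image _
    · apply Set.Finite.image
      exact (Set.finite_Iio N).biUnion (fun n _ => (hS n).image _)
  apply hfin.subset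
  intro z hz
  have hz' : ¬ dist (bwd g z) (g ∞) < ε := hz
  have hball : ∀ p : ℕ × OnePoint ℕ, N ≤ p.1 → |g p - g ∞| < ε / 4 := by
    intro p hp
    have h1 := hN p hp
    rw [mem_preimage, Metric.mem_ball, Real.dist_eq] at h1
    exact h1
  rcases z with n | ⟨n, m⟩
  · left
    refine ⟨n, ?_, rfl⟩
    by_contra hn
    apply hz'
    have h1 := hball (n, ∞) (by simpa using hn)
    rw [bwd_inl, Real.dist_eq, abs_lt]
    rw [abs_lt] at h1
    constructor <;> linarith [h1.1, h1.2]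
  · right
    refine ⟨(n, m), ?_, rfl⟩
    rw [Real.dist_eq, bwd_inr] at hz'
    by_cases hn : n < N
    · rw [mem_iUnion₂]
      refine ⟨n, hn, m, ?_, rfl⟩
      intro h1
      apply hz'
      rw [Real.dist_eq, abs_lt] at h1
      rw [abs_lt]
      constructor <;> linarith [h1.1, h1.2]
    · exfalso
      apply hz'
      have h1 := hball (n, ∞) (by simpa using hn)
      have h2 := hball (n, (m : OnePoint ℕ)) (by simpa using hn)
      rw [abs_lt] at h1 h2 ⊢
      constructor <;> linarith [h1.1, h1.2, h2.1, h2.2]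

lemma bwd_fwd (f : KA → ℝ) : bwd (fwd f) = f := by
  ext x
  induction x using OnePoint.rec with
  | infty => rfl
  | coe z =>
    rcases z with n | ⟨n, m⟩
    · rw [bwd_inl, fwd_inf, fwd_infty]; ring
    · rw [bwd_inr, fwd_coe, fwd_inf, fwd_infty]; ring

lemma fwd_bwd (g : KB → ℝ) : fwd (bwd g) = g := by
  ext x
  induction x using OnePoint.rec with
  | infty => rfl
  | coe z =>
    obtain ⟨n, y⟩ := z
    induction y using OnePoint.rec with
    | infty => rw [fwd_inf, bwd_infty, bwd_inl]; ring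
    | coe m => rw [fwd_coe, bwd_inl, bwd_inr]; ring

/-- The linear isomorphism. -/
def T : C(KA, ℝ) ≃ₗ[ℝ] C(KB, ℝ) where
  toFun f := ⟨fwd f, continuous_fwd f.continuous⟩
  invFun g := ⟨bwd g, continuous_bwd g.continuous⟩
  map_add' f g := by
    ext x
    change fwd (fun x => f x + g x) x = fwd f x + fwd g x
    induction x using OnePoint.rec with
    | infty => rfl
    | coe z =>
      obtain ⟨n, y⟩ := z
      induction y using OnePoint.rec with
      | infty => simp only [fwd_inf]; ring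
      | coe m => simp only [fwd_coe]; ring
  map_smul' c f := by
    ext x
    change fwd (fun x => c * f x) x = c * fwd f x
    induction x using OnePoint.rec with
    | infty => rfl
    | coe z =>
      obtain ⟨n, y⟩ := z
      induction y using OnePoint.rec with
      | infty => simp only [fwd_inf]; ring
      | coe m => simp only [fwd_coe]; ring
  left_inv f := by
    ext x
    change bwd (fwd f) x = f x
    rw [bwd_fwd]
  right_inv g := by
    ext x
    change fwd (bwd g) x = g x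
    rw [fwd_bwd]

lemma T_bound (f : C(KA, ℝ)) : ‖T f‖ ≤ 1 * ‖f‖ := by
  rw [one_mul, ContinuousMap.norm_le _ (norm_nonneg _)]
  intro x
  have hf : ∀ y, |f y| ≤ ‖f‖ := fun y => f.norm_coe_le_norm y
  change |fwd f x| ≤ ‖f‖
  induction x using OnePoint.rec with
  | infty => exact hf _
  | coe z =>
    obtain ⟨n, y⟩ := z
    induction y using OnePoint.rec with
    | infty =>
      rw [fwd_inf]
      have h1 := abs_le.1 (hf ∞)
      have h2 := abs_le.1 (hf ((Sum.inl n : ℕ ⊕ ℕ × ℕ) : KA))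
      rw [abs_le]
      constructor <;> linarith [h1.1, h1.2, h2.1, h2.2]
    | coe m =>
      rw [fwd_coe]
      have h1 := abs_le.1 (hf ((Sum.inr (n, m) : ℕ ⊕ ℕ × ℕ) : KA))
      have h2 := abs_le.1 (hf ((Sum.inl n : ℕ ⊕ ℕ × ℕ) : KA))
      rw [abs_le]
      constructor <;> linarith [h1.1, h1.2, h2.1, h2.2]

lemma T_symm_bound (g : C(KB, ℝ)) : ‖T.symm g‖ ≤ 5 * ‖g‖ := by
  rw [ContinuousMap.norm_le _ (by positivity)]
  intro x
  have hg : ∀ y, |g y| ≤ ‖g‖ := fun y => g.norm_coe_le_norm y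
  have h0 := abs_le.1 (hg ∞)
  change |bwd g x| ≤ 5 * ‖g‖
  induction x using OnePoint.rec with
  | infty =>
    rw [bwd_infty, abs_le]
    constructor <;> linarith [norm_nonneg g, h0.1, h0.2]
  | coe z =>
    rcases z with n | ⟨n, m⟩
    · rw [bwd_inl, abs_le]
      have h1 := abs_le.1 (hg ((n, ∞) : ℕ × OnePoint ℕ))
      constructor <;> linarith [norm_nonneg g, h0.1, h0.2, h1.1, h1.2]
    · rw [bwd_inr, abs_le]
      have h1 := abs_le.1 (hg ((n, ∞) : ℕ × OnePoint ℕ))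
      have h2 := abs_le.1 (hg ((n, (m : OnePoint ℕ)) : ℕ × OnePoint ℕ))
      constructor <;> linarith [norm_nonneg g, h0.1, h0.2, h1.1, h1.2, h2.1, h2.2]

lemma T_mono (f g : C(KA, ℝ)) (h : f ≤ g) : T f ≤ T g := by
  intro x
  have h' : ∀ y, f y ≤ g y := h
  change fwd f x ≤ fwd g x
  induction x using OnePoint.rec with
  | infty => exact h' _
  | coe z =>
    obtain ⟨n, y⟩ := z
    induction y using OnePoint.rec with
    | infty =>
      rw [fwd_inf, fwd_inf]
      linarith [h' ∞, h' ((Sum.inl n : ℕ ⊕ ℕ × ℕ) : KA)]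
    | coe m =>
      rw [fwd_coe, fwd_coe]
      linarith [h' ((Sum.inr (n, m) : ℕ ⊕ ℕ × ℕ) : KA), h' ((Sum.inl n : ℕ ⊕ ℕ × ℕ) : KA)]

lemma posIso_KA_KB : PosIso KA KB 5 := by
  refine ⟨T, ?_, ?_, fun f => by simpa using T_bound f, T_symm_bound⟩
  · ext x
    change fwd (fun _ => 1) x = 1
    induction x using OnePoint.rec with
    | infty => rfl
    | coe z =>
      obtain ⟨n, y⟩ := z
      induction y using OnePoint.rec with
      | infty => rw [fwd_inf]; norm_num
      | coe m => rw [fwd_coe]; norm_num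
  · intro f hf
    have h := T_mono 0 f hf
    rwa [map_zero] at h

/-- the convergent sequence -/
abbrev P2 : Type := Nx Unit

lemma homeo_P2_KA : Nonempty (P2 ≃ₜ KA) := by
  obtain ⟨e⟩ : Nonempty (ℕ × Unit ≃ ℕ ⊕ ℕ × ℕ) := nonempty_equiv_of_countable
  exact ⟨Homeomorph.onePointCongr ⟨e, continuous_of_discreteTopology,
    continuous_of_discreteTopology⟩⟩

lemma homeo_KB : Nonempty (KB ≃ₜ Nx P2) := by
  obtain ⟨e⟩ : Nonempty (ℕ ≃ ℕ × Unit) := nonempty_equiv_of_countable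
  exact ⟨Homeomorph.onePointCongr ((Homeomorph.refl ℕ).prodCongr
    (Homeomorph.onePointCongr ⟨e, continuous_of_discreteTopology,
      continuous_of_discreteTopology⟩))⟩

lemma posIso_base : PosIso P2 (Nx P2) 5 := by
  obtain ⟨e1⟩ := homeo_P2_KA
  obtain ⟨e2⟩ := homeo_KB
  have h := ((PosIso.ofHomeo e1).trans zero_le_one posIso_KA_KB).trans (by norm_num)
    (PosIso.ofHomeo e2)
  norm_num at h
  exact h

lemma good_two (m : ℕ) : ∃ (L : Type) (_ : TopologicalSpace L) (_ : CompactSpace L),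
    T2Space L ∧ Countable L ∧ HasHt L (m + 2) ∧ PosIso P2 L (5 ^ m) := by
  induction m with
  | zero =>
    refine ⟨P2, inferInstance, inferInstance, inferInstance,
      inferInstanceAs (Countable (Option _)), hasHt_unit.next, ?_⟩
    rw [pow_zero]; exact PosIso.refl
  | succ m ih =>
    obtain ⟨L, i1, i2, i3, i4, h1, h2⟩ := ih
    refine ⟨Nx L, inferInstance, inferInstance, inferInstance,
      inferInstanceAs (Countable (Option _)), h1.next, ?_⟩
    have h3 := posIso_base.trans (by norm_num) (h2.next (one_le_pow₀ (by norm_num)))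
    rw [pow_succ, mul_comm]
    exact h3

theorem good (k m : ℕ) : ∃ (K L : Type) (_ : TopologicalSpace K) (_ : TopologicalSpace L)
    (_ : CompactSpace K) (_ : CompactSpace L),
    T2Space K ∧ T2Space L ∧ Countable K ∧ Countable L ∧ HasHt K (k + 2) ∧ HasHt L (k + m + 2) ∧
      PosIso K L (5 ^ m) := by
  induction k with
  | zero =>
    obtain ⟨L, i1, i2, i3, i4, h1, h2⟩ := good_two m
    refine ⟨P2, L, inferInstance, i1, inferInstance, i2, inferInstance, i3,
      inferInstanceAs (Countable (Option _)), i4, hasHt_unit.next, ?_, h2⟩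
    rw [zero_add]; exact h1
  | succ k ih =>
    obtain ⟨K, L, i1, i2, i3, i4, i5, i6, i7, i8, h1, h2, h3⟩ := ih
    refine ⟨Nx K, Nx L, inferInstance, inferInstance, inferInstance, inferInstance, inferInstance,
      inferInstance, inferInstanceAs (Countable (Option _)), inferInstanceAs (Countable (Option _)),
      h1.next, ?_, h3.next (one_le_pow₀ (by norm_num))⟩
    have h4 := h2.next
    have h5 : k + m + 2 + 1 = k + 1 + m + 2 := by ring
    rwa [h5] at h4

end

end Pool.Agent.Y767.HT
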