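import Pool.Agent.Y767.HT.OnlyIf

set_option autoImplicit false

open Set Filter Topology OnePoint

namespace Pool.Agent.Y767.HT

/-- one-point compactification of countably many copies of `K` -/
abbrev Nx (K : Type) : Type := OnePoint (ℕ × K)

section top

variable {K : Type} [TopologicalSpace K] [CompactSpace K]

lemma bound_of_compact (t : Set (ℕ × K)) (ht : IsCompact t) : ∃ N, ∀ p ∈ t, p.1 < N := by
  have hfin := isCompact_iff_finite.1 (ht.image continuous_fst)
  obtain ⟨N, hN⟩ := hfin.bddAbove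
  exact ⟨N + 1, fun p hp => Nat.lt_succ_of_le (hN ⟨p, hp, rfl⟩)⟩

lemma nhds_infty {U : Set (Nx K)} (hU : U ∈ 𝓝 (∞ : Nx K)) :
    ∃ N, ∀ p : ℕ × K, N ≤ p.1 → (p : Nx K) ∈ U := by
  rw [mem_nhds_iff] at hU
  obtain ⟨V, hVU, hV, hVm⟩ := hU
  have hc := ((OnePoint.isOpen_iff_of_mem hVm).1 hV).2
  obtain ⟨N, hN⟩ := bound_of_compact _ hc
  refine ⟨N, fun p hp => hVU ?_⟩
  by_contra h
  have := hN p h
  omega

lemma cont_iff (g : Nx K → ℝ) : Continuous g ↔
    (∀ n : ℕ, Continuous fun y : K => g ((n, y) : ℕ × K)) ∧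
    ∀ ε > 0, ∃ N, ∀ p : ℕ × K, N ≤ p.1 → |g p - g ∞| < ε := by
  constructor
  · intro hg
    refine ⟨fun n => hg.comp (OnePoint.continuous_coe.comp (by fun_prop)), fun ε hε => ?_⟩
    obtain ⟨N, hN⟩ := nhds_infty (hg.continuousAt.preimage_mem_nhds
      (Metric.ball_mem_nhds (g ∞) hε))
    refine ⟨N, fun p hp => ?_⟩
    have h1 := hN p hp
    rw [mem_preimage, Metric.mem_ball, Real.dist_eq] at h1
    exact h1
  · rintro ⟨h1, h2⟩
    rw [OnePoint.continuous_iff]
    constructor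
    · rw [Metric.tendsto_nhds]
      intro ε hε
      obtain ⟨N, hN⟩ := h2 ε hε
      rw [Filter.Eventually, hasBasis_coclosedCompact.mem_iff]
      refine ⟨(Iio N) ×ˢ univ, ⟨(isClosed_discrete _).prod isClosed_univ,
        ((Set.finite_Iio _).isCompact).prod isCompact_univ⟩, ?_⟩
      rintro ⟨n, y⟩ hp
      have hn : N ≤ n := by
        by_contra hlt
        push Not at hlt
        exact hp ⟨hlt, mem_univ _⟩
      exact hN (n, y) hn
    · rw [continuous_prod_of_discrete_left]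
      exact h1

/-- points: infinity if `b`, and the points over `A` -/
def EE (A : Set K) (b : Prop) : Set (Nx K) :=
  {x | (x = ∞ ∧ b) ∨ ∃ p : ℕ × K, p.2 ∈ A ∧ x = p}

lemma EE_infty (A : Set K) (b : Prop) : (∞ : Nx K) ∈ EE A b ↔ b := by
  constructor
  · rintro (⟨-, h⟩ | ⟨p, -, h⟩)
    · exact h
    · exact absurd h.symm (OnePoint.coe_ne_infty p)
  · exact fun h => Or.inl ⟨rfl, h⟩

lemma EE_coe (A : Set K) (b : Prop) (p : ℕ × K) : (p : Nx K) ∈ EE A b ↔ p.2 ∈ A := by
  constructor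
  · rintro (⟨h, -⟩ | ⟨q, hq, h⟩)
    · exact absurd h (OnePoint.coe_ne_infty p)
    · rw [OnePoint.coe_injective h]; exact hq
  · exact fun h => Or.inr ⟨p, h, rfl⟩

lemma derived_EE (A : Set K) (b : Prop) : derivedSet (EE A b) = EE (derivedSet A) A.Nonempty := by
  ext x
  induction x using OnePoint.rec with
  | infty =>
    rw [EE_infty]
    constructor
    · intro hx
      rw [mem_derivedSet, accPt_iff_nhds] at hx
      obtain ⟨y, hy, hne⟩ := hx univ univ_mem
      rcases hy.2 with ⟨h, -⟩ | ⟨p, hp, -⟩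
      · exact absurd h hne
      · exact ⟨p.2, hp⟩
    · rintro ⟨a, ha⟩
      rw [mem_derivedSet, accPt_iff_nhds]
      intro U hU
      obtain ⟨N, hN⟩ := nhds_infty hU
      exact ⟨((N, a) : ℕ × K), ⟨hN _ le_rfl, (EE_coe A b _).2 ha⟩, OnePoint.coe_ne_infty _⟩
  | coe p =>
    rw [EE_coe]
    obtain ⟨n, a⟩ := p
    constructor
    · intro hx
      rw [mem_derivedSet, accPt_iff_nhds] at hx ⊢
      intro U hU
      have h1 : ((↑) : ℕ × K → Nx K) '' (({n} : Set ℕ) ×ˢ U) ∈ 𝓝 (((n, a) : ℕ × K) : Nx K) := by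
        rw [OnePoint.nhds_coe_eq]
        apply image_mem_map
        exact prod_mem_nhds (by simp) hU
      obtain ⟨y, ⟨⟨q, hq, rfl⟩, hy2⟩, hne⟩ := hx _ h1
      refine ⟨q.2, ⟨hq.2, (EE_coe A b q).1 hy2⟩, fun h => hne ?_⟩
      have hq1 : q.1 = n := hq.1
      have : q = (n, a) := Prod.ext hq1 h
      rw [this]
    · intro hx
      rw [mem_derivedSet, accPt_iff_nhds] at hx ⊢
      intro U hU
      have h1 : {y : K | (((n, y) : ℕ × K) : Nx K) ∈ U} ∈ 𝓝 a := by
        have hc : Continuous fun y : K => (((n, y) : ℕ × K) : Nx K) :=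
          OnePoint.continuous_coe.comp (by fun_prop)
        exact hc.continuousAt.preimage_mem_nhds hU
      obtain ⟨y, ⟨hy1, hy2⟩, hne⟩ := hx _ h1
      refine ⟨((n, y) : ℕ × K), ⟨hy1, (EE_coe A b _).2 hy2⟩, fun h => hne ?_⟩
      exact (Prod.ext_iff.1 (OnePoint.coe_injective h)).2

lemma cbn_Nx (n : ℕ) : cbn (Nx K) (n + 1) = EE (cbn K (n + 1)) (cbn K n).Nonempty := by
  induction n with
  | zero =>
    change derivedSet (univ : Set (Nx K)) = EE (derivedSet univ) (univ : Set K).Nonempty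
    have h : (univ : Set (Nx K)) = EE univ True := by
      ext x
      induction x using OnePoint.rec with
      | infty => simp [EE_infty]
      | coe p => simp [EE_coe]
    rw [h, derived_EE]
  | succ n ih =>
    change derivedSet (cbn (Nx K) (n + 1)) = _
    rw [ih, derived_EE]
    rfl

end top

/-- finite Cantor-Bendixson height -/
def HasHt (K : Type) [TopologicalSpace K] (n : ℕ) : Prop :=
  cbn K n = ∅ ∧ ∀ m < n, (cbn K m).Nonempty

lemma HasHt.next {K : Type} [TopologicalSpace K] [CompactSpace K] {n : ℕ} (h : HasHt K n)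
    : HasHt (Nx K) (n + 1) := by
  constructor
  · rw [cbn_Nx]
    have h1 : cbn K (n + 1) = ∅ := by
      have := cbn_succ_subset K n
      rw [h.1] at this
      exact subset_empty_iff.1 this
    ext x
    induction x using OnePoint.rec with
    | infty => rw [EE_infty, h.1]; simp
    | coe p => rw [EE_coe, h1]; simp
  · intro m hm
    cases m with
    | zero => exact ⟨∞, mem_univ _⟩
    | succ m =>
      rw [cbn_Nx]
      exact ⟨∞, (EE_infty _ _).2 (h.2 m (by omega))⟩

lemma hasHt_unit : HasHt Unit 1 := by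
  constructor
  · change derivedSet (univ : Set Unit) = ∅
    rw [eq_empty_iff_forall_notMem]
    intro x hx
    rw [mem_derivedSet, accPt_iff_nhds] at hx
    obtain ⟨y, -, hne⟩ := hx univ univ_mem
    exact hne (Subsingleton.elim _ _)
  · intro m hm
    have : m = 0 := by omega
    subst this
    exact ⟨(), mem_univ _⟩

/-! ### positive isomorphisms -/

/-- a positive unital isomorphism whose inverse has norm at most `C` -/
def PosIso (K L : Type) [TopologicalSpace K] [CompactSpace K] [TopologicalSpace L] [CompactSpace L]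
    (C : ℝ) : Prop :=
  ∃ T : C(K, ℝ) ≃ₗ[ℝ] C(L, ℝ), T 1 = 1 ∧ (∀ f, 0 ≤ f → 0 ≤ T f) ∧ (∀ f, ‖T f‖ ≤ ‖f‖) ∧
    ∀ g, ‖T.symm g‖ ≤ C * ‖g‖

section iso

variable {K L M : Type} [TopologicalSpace K] [CompactSpace K] [TopologicalSpace L] [CompactSpace L]
  [TopologicalSpace M] [CompactSpace M]

lemma PosIso.trans {C D : ℝ} (hC : 0 ≤ C) (h : PosIso K L C) (h' : PosIso L M D) :
    PosIso K M (C * D) := by
  obtain ⟨T, h1, h2, h3, h4⟩ := h
  obtain ⟨S, k1, k2, k3, k4⟩ := h'
  refine ⟨T.trans S, ?_, ?_, ?_, ?_⟩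
  · rw [LinearEquiv.trans_apply, h1, k1]
  · intro f hf
    exact k2 _ (h2 f hf)
  · intro f
    exact (k3 _).trans (h3 f)
  · intro g
    rw [LinearEquiv.trans_symm, LinearEquiv.trans_apply]
    calc ‖T.symm (S.symm g)‖ ≤ C * ‖S.symm g‖ := h4 _
      _ ≤ C * (D * ‖g‖) := mul_le_mul_of_nonneg_left (k4 g) hC
      _ = C * D * ‖g‖ := by ring

lemma PosIso.refl : PosIso K K 1 := by
  refine ⟨LinearEquiv.refl ℝ _, rfl, fun f hf => hf, fun f => le_rfl, fun g => ?_⟩
  rw [one_mul]; exact le_rfl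

lemma PosIso.ofHomeo (e : K ≃ₜ L) : PosIso K L 1 := by
  refine ⟨{ toFun := fun f => f.comp ⟨e.symm, e.symm.continuous⟩
            invFun := fun g => g.comp ⟨e, e.continuous⟩
            map_add' := fun f g => rfl
            map_smul' := fun c f => rfl
            left_inv := fun f => by ext x; simp
            right_inv := fun g => by ext x; simp }, rfl, ?_, ?_, ?_⟩
  · intro f hf
    rw [ContinuousMap.le_def] at hf ⊢
    intro y
    exact hf (e.symm y)
  · intro f
    rw [ContinuousMap.norm_le _ (norm_nonneg _)]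
    intro y
    exact f.norm_coe_le_norm _
  · intro g
    rw [one_mul, ContinuousMap.norm_le _ (norm_nonneg _)]
    intro x
    exact g.norm_coe_le_norm _

/-- the section of a function over the `n`-th copy -/
def sec (f : C(Nx K, ℝ)) (n : ℕ) : C(K, ℝ) :=
  ⟨fun y => f ((n, y) : ℕ × K), ((cont_iff _).1 f.continuous).1 n⟩

lemma sec_apply (f : C(Nx K, ℝ)) (n : ℕ) (y : K) : sec f n y = f ((n, y) : ℕ × K) := rfl

/-- apply a unital bounded map in each copy -/
def lift (S : C(K, ℝ) →ₗ[ℝ] C(L, ℝ)) (hS : S 1 = 1) (B : ℝ) (hB : ∀ f, ‖S f‖ ≤ B * ‖f‖)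
    (hB0 : 0 < B) (f : C(Nx K, ℝ)) : C(Nx L, ℝ) :=
  ⟨fun x => x.elim (f ∞) (fun p => S (sec f p.1) p.2), by
    rw [cont_iff]
    refine ⟨fun n => (S (sec f n)).continuous, fun ε hε => ?_⟩
    obtain ⟨N, hN⟩ := ((cont_iff _).1 f.continuous).2 (ε / (2 * B)) (by positivity)
    refine ⟨N, fun p hp => ?_⟩
    change |S (sec f p.1) p.2 - f ∞| < ε
    have h1 : S (sec f p.1) p.2 - f ∞ = S (sec f p.1 - (f ∞) • (1 : C(K, ℝ))) p.2 := by
      rw [map_sub, _root_.map_smul, hS, ContinuousMap.sub_apply, ContinuousMap.smul_apply,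
        ContinuousMap.one_apply, smul_eq_mul, mul_one]
    have h2 : ‖sec f p.1 - (f ∞) • (1 : C(K, ℝ))‖ ≤ ε / (2 * B) := by
      rw [ContinuousMap.norm_le _ (by positivity)]
      intro y
      rw [ContinuousMap.sub_apply, ContinuousMap.smul_apply, ContinuousMap.one_apply, smul_eq_mul,
        mul_one, sec_apply, Real.norm_eq_abs]
      exact (hN (p.1, y) hp).le
    rw [h1]
    calc |S (sec f p.1 - (f ∞) • (1 : C(K, ℝ))) p.2|
        ≤ ‖S (sec f p.1 - (f ∞) • (1 : C(K, ℝ)))‖ := by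
          rw [← Real.norm_eq_abs]; exact ContinuousMap.norm_coe_le_norm _ _
      _ ≤ B * (ε / (2 * B)) := (hB _).trans (mul_le_mul_of_nonneg_left h2 hB0.le)
      _ = ε / 2 := by field_simp
      _ < ε := by linarith⟩

section lift

variable (S : C(K, ℝ) →ₗ[ℝ] C(L, ℝ)) (hS : S 1 = 1) (B : ℝ) (hB : ∀ f, ‖S f‖ ≤ B * ‖f‖)
    (hB0 : 0 < B)

lemma lift_infty (f : C(Nx K, ℝ)) : lift S hS B hB hB0 f ∞ = f ∞ := rfl

lemma lift_coe (f : C(Nx K, ℝ)) (n : ℕ) (y : L) :
    lift S hS B hB hB0 f ((n, y) : ℕ × L) = S (sec f n) y := rfl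

lemma sec_lift (f : C(Nx K, ℝ)) (n : ℕ) : sec (lift S hS B hB hB0 f) n = S (sec f n) := by
  ext y; rfl

lemma lift_bound (hB1 : 1 ≤ B) (f : C(Nx K, ℝ)) : ‖lift S hS B hB hB0 f‖ ≤ B * ‖f‖ := by
  rw [ContinuousMap.norm_le _ (by positivity)]
  intro x
  induction x using OnePoint.rec with
  | infty =>
    rw [lift_infty]
    have := f.norm_coe_le_norm ∞
    nlinarith [norm_nonneg f]
  | coe p =>
    obtain ⟨n, y⟩ := p
    rw [lift_coe]
    have h1 : ‖sec f n‖ ≤ ‖f‖ := by
      rw [ContinuousMap.norm_le _ (norm_nonneg _)]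
      intro y
      exact f.norm_coe_le_norm _
    calc ‖S (sec f n) y‖ ≤ ‖S (sec f n)‖ := ContinuousMap.norm_coe_le_norm _ _
      _ ≤ B * ‖sec f n‖ := hB _
      _ ≤ B * ‖f‖ := mul_le_mul_of_nonneg_left h1 hB0.le

end lift

lemma PosIso.next {C : ℝ} (hC : 1 ≤ C) (h : PosIso K L C) : PosIso (Nx K) (Nx L) C := by
  obtain ⟨T, h1, h2, h3, h4⟩ := h
  have hT1 : (T : C(K, ℝ) →ₗ[ℝ] C(L, ℝ)) 1 = 1 := h1
  have hT2 : (T.symm : C(L, ℝ) →ₗ[ℝ] C(K, ℝ)) 1 = 1 := by
    change T.symm 1 = 1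
    rw [LinearEquiv.symm_apply_eq, h1]
  have hT3 : ∀ f, ‖(T : C(K, ℝ) →ₗ[ℝ] C(L, ℝ)) f‖ ≤ 1 * ‖f‖ := by
    intro f; rw [one_mul]; exact h3 f
  have hT4 : ∀ f, ‖(T.symm : C(L, ℝ) →ₗ[ℝ] C(K, ℝ)) f‖ ≤ C * ‖f‖ := fun f => h4 f
  have hC0 : 0 < C := by linarith
  refine ⟨{ toFun := lift T hT1 1 hT3 one_pos
            invFun := lift T.symm hT2 C hT4 hC0
            map_add' := ?_
            map_smul' := ?_
            left_inv := ?_
            right_inv := ?_ }, ?_, ?_, ?_, ?_⟩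
  · intro f g
    ext x
    induction x using OnePoint.rec with
    | infty => rfl
    | coe p =>
      obtain ⟨n, y⟩ := p
      rw [ContinuousMap.add_apply, lift_coe, lift_coe, lift_coe, ← ContinuousMap.add_apply, ← map_add]
      rfl
  · intro c f
    ext x
    induction x using OnePoint.rec with
    | infty => rfl
    | coe p =>
      obtain ⟨n, y⟩ := p
      rw [RingHom.id_apply, ContinuousMap.smul_apply, lift_coe, lift_coe, ← ContinuousMap.smul_apply,
        ← _root_.map_smul]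
      rfl
  · intro f
    ext x
    induction x using OnePoint.rec with
    | infty => rfl
    | coe p =>
      obtain ⟨n, y⟩ := p
      rw [lift_coe, sec_lift]
      change T.symm (T (sec f n)) y = _
      rw [LinearEquiv.symm_apply_apply]
      rfl
  · intro f
    ext x
    induction x using OnePoint.rec with
    | infty => rfl
    | coe p =>
      obtain ⟨n, y⟩ := p
      rw [lift_coe, sec_lift]
      change T (T.symm (sec f n)) y = _
      rw [LinearEquiv.apply_symm_apply]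
      rfl
  · ext x
    induction x using OnePoint.rec with
    | infty => rfl
    | coe p =>
      obtain ⟨n, y⟩ := p
      change lift (T : C(K, ℝ) →ₗ[ℝ] C(L, ℝ)) hT1 1 hT3 one_pos 1 ((n, y) : ℕ × L) = 1
      rw [lift_coe]
      have : sec (1 : C(Nx K, ℝ)) n = 1 := by ext y; rfl
      rw [this, hT1]
      rfl
  · intro f hf
    rw [ContinuousMap.le_def] at hf ⊢
    intro x
    induction x using OnePoint.rec with
    | infty => exact hf ∞
    | coe p =>
      obtain ⟨n, y⟩ := p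
      have h5 : 0 ≤ sec f n := by
        rw [ContinuousMap.le_def]
        intro z
        exact hf _
      exact ContinuousMap.le_def.1 (h2 _ h5) y
  · intro f
    have := lift_bound (T : C(K, ℝ) →ₗ[ℝ] C(L, ℝ)) hT1 1 hT3 one_pos le_rfl f
    rw [one_mul] at this
    exact this
  · intro g
    exact lift_bound (T.symm : C(L, ℝ) →ₗ[ℝ] C(K, ℝ)) hT2 C hT4 hC0 hC g

end iso

end Pool.Agent.Y767.HT
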