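import Mathlib

set_option autoImplicit false

open Set Filter Topology

namespace Pool.Agent.Y767.HT

/-- Cantor-Bendixson derivatives of finite order. -/
def cbn (K : Type) [TopologicalSpace K] : ℕ → Set K
  | 0 => univ
  | n + 1 => derivedSet (cbn K n)

lemma derivedSet_mono' {X : Type} [TopologicalSpace X] {A B : Set X} (h : A ⊆ B) :
    derivedSet A ⊆ derivedSet B := fun _ hx => AccPt.mono hx (principal_mono.2 h)

lemma cbn_succ_subset (K : Type) [TopologicalSpace K] (n : ℕ) : cbn K (n + 1) ⊆ cbn K n := by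
  induction n with
  | zero => exact subset_univ _
  | succ n ih => exact derivedSet_mono' ih

lemma cbn_antitone (K : Type) [TopologicalSpace K] : Antitone (cbn K) :=
  antitone_nat_of_succ_le (cbn_succ_subset K)

variable {K L : Type} [TopologicalSpace K] [CompactSpace K] [T2Space K]
  [TopologicalSpace L] [CompactSpace L] [T2Space L]

/-- `y` sees `x` with mass at least `c`. -/
def Sees (F : C(K, ℝ) →ₗ[ℝ] C(L, ℝ)) (c : ℝ) (x : K) (y : L) : Prop :=
  ∀ f : C(K, ℝ), 0 ≤ f → 1 ≤ f x → c ≤ F f y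

variable {F : C(K, ℝ) →ₗ[ℝ] C(L, ℝ)} {C : ℝ}

lemma mono_of (hpos : ∀ f, 0 ≤ f → 0 ≤ F f) {f g : C(K, ℝ)} (h : f ≤ g) : F f ≤ F g := by
  have h1 := hpos (g - f) (sub_nonneg.2 h)
  rw [map_sub] at h1
  exact sub_nonneg.1 h1

lemma exists_sees (hpos : ∀ f, 0 ≤ f → 0 ≤ F f) (hC : 0 < C) (hlow : ∀ f, ‖f‖ ≤ C * ‖F f‖)
    (x : K) : ∃ y : L, Sees F C⁻¹ x y := by
  by_contra hno
  unfold Sees at hno
  push Not at hno
  choose f hf0 hfx hfy using hno
  have hopen : ∀ y : L, IsOpen {z : L | F (f y) z < C⁻¹} := fun y =>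
    isOpen_lt (F (f y)).continuous continuous_const
  obtain ⟨t, ht⟩ := isCompact_univ.elim_finite_subcover (fun y : L => {z : L | F (f y) z < C⁻¹})
    hopen (fun z _ => mem_iUnion.2 ⟨z, hfy z⟩)
  -- the minimum
  have hex : ∀ s : Finset L, ∃ g : C(K, ℝ), 0 ≤ g ∧ 1 ≤ g x ∧ g ≤ 1 ∧ ∀ y ∈ s, g ≤ f y := by
    classical
    intro s
    induction s using Finset.induction_on with
    | empty => exact ⟨1, zero_le_one, le_rfl, le_rfl, by simp⟩
    | insert a s _ ih =>
      obtain ⟨g, h1, h2, h3, h4⟩ := ih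
      refine ⟨g ⊓ f a, le_inf h1 (hf0 a), ?_, inf_le_left.trans h3, ?_⟩
      · rw [ContinuousMap.inf_apply]
        exact le_inf h2 (hfx a)
      · intro y hy
        rcases Finset.mem_insert.1 hy with rfl | hy
        · exact inf_le_right
        · exact inf_le_left.trans (h4 y hy)
  obtain ⟨g, h1, h2, h3, h4⟩ := hex t
  have hFg : ∀ z : L, F g z < C⁻¹ := by
    intro z
    obtain ⟨y, hy, hz⟩ := mem_iUnion₂.1 (ht (mem_univ z))
    exact lt_of_le_of_lt (mono_of hpos (h4 y hy) z) hz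
  have hn : ‖F g‖ < C⁻¹ := by
    rw [ContinuousMap.norm_lt_iff _ (inv_pos.2 hC)]
    intro z
    have hz0 : 0 ≤ F g z := hpos g h1 z
    rw [Real.norm_eq_abs, abs_of_nonneg hz0]
    exact hFg z
  have hg1 : 1 ≤ ‖g‖ := by
    have hx0 : 0 ≤ g x := h1 x
    have := g.norm_coe_le_norm x
    rw [Real.norm_eq_abs, abs_of_nonneg hx0] at this
    exact h2.trans this
  have h5 := hlow g
  have h6 : C * ‖F g‖ < C * C⁻¹ := mul_lt_mul_of_pos_left hn hC
  rw [mul_inv_cancel₀ hC.ne'] at h6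
  linarith

lemma finite_sees (hpos : ∀ f, 0 ≤ f → 0 ≤ F f) {c : ℝ} (hc : 0 < c) (y : L) :
    {x : K | Sees F c x y}.Finite := by
  by_contra hinf
  have hinf' : {x : K | Sees F c x y}.Infinite := hinf
  obtain ⟨m, hm⟩ := exists_nat_gt (F 1 y / c)
  obtain ⟨s, hs, hcard⟩ := hinf'.exists_subset_card_eq m
  -- disjoint bumps
  obtain ⟨U, hU, hdisj⟩ := (s.finite_toSet).t2_separation
  have hb : ∀ x : K, ∃ f : C(K, ℝ), (∀ z, 0 ≤ f z) ∧ (∀ z, f z ≤ 1) ∧ f x = 1 ∧
      ∀ z, z ∉ U x → f z = 0 := by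
    intro x
    have hd : Disjoint ((U x)ᶜ) ({x} : Set K) := by
      rw [disjoint_singleton_right]
      exact fun h => h (hU x).1
    obtain ⟨f, h1, h2, h3⟩ := exists_continuous_zero_one_of_isClosed
      ((hU x).2.isClosed_compl) isClosed_singleton hd
    exact ⟨f, fun z => (h3 z).1, fun z => (h3 z).2, h2 rfl, fun z hz => h1 hz⟩
  choose f hf0 hf1 hfx hfU using hb
  have hsum : ∑ x ∈ s, f x ≤ (1 : C(K, ℝ)) := by
    rw [ContinuousMap.le_def]
    intro z
    rw [ContinuousMap.sum_apply, ContinuousMap.one_apply]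
    by_cases hz : ∃ x ∈ s, z ∈ U x
    · obtain ⟨x, hx, hzx⟩ := hz
      rw [Finset.sum_eq_single x]
      · exact hf1 x z
      · intro x' hx' hne
        apply hfU
        intro h'
        exact (hdisj (Finset.mem_coe.2 hx') (Finset.mem_coe.2 hx) hne).le_bot ⟨h', hzx⟩
      · intro h; exact absurd hx h
    · push Not at hz
      rw [Finset.sum_eq_zero (fun x hx => hfU x z (hz x hx))]
      exact zero_le_one
  have h1 := ContinuousMap.le_def.1 (mono_of hpos hsum) y
  rw [map_sum, ContinuousMap.sum_apply] at h1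
  have h2 : (m : ℝ) * c ≤ ∑ x ∈ s, F (f x) y := by
    have h3 : ∑ _x ∈ s, c ≤ ∑ x ∈ s, F (f x) y :=
      Finset.sum_le_sum fun x hx => hs (Finset.mem_coe.2 hx) (f x) (fun z => hf0 x z) (hfx x).ge
    rw [Finset.sum_const, hcard, nsmul_eq_mul] at h3
    exact h3
  rw [div_lt_iff₀ hc] at hm
  linarith

lemma step (hpos : ∀ f, 0 ≤ f → 0 ≤ F f) {c : ℝ} (hc : 0 < c) {A : Set K} {B : Set L}
    (hAB : ∀ x ∈ A, ∃ y ∈ B, Sees F c x y) {x : K} (hx : x ∈ derivedSet A) :
    ∃ y ∈ derivedSet B, Sees F c x y := by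
  classical
  have hx' : (𝓝[≠] x ⊓ 𝓟 A).NeBot := hx
  obtain ⟨y0, -⟩ : ∃ y0 : L, True := by
    obtain ⟨a, ha⟩ : A.Nonempty := by
      by_contra hA
      rw [not_nonempty_iff_eq_empty] at hA
      rw [hA, principal_empty, inf_bot_eq] at hx'
      exact hx'.ne rfl
    obtain ⟨y, -⟩ := hAB a ha
    exact ⟨y, trivial⟩
  set φ : K → L := fun a => if h : a ∈ A then (hAB a h).choose else y0 with hφ
  have hφA : ∀ a ∈ A, φ a ∈ B ∧ Sees F c a (φ a) := by
    intro a ha
    rw [hφ]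
    simp only [dif_pos ha]
    exact (hAB a ha).choose_spec
  set G : Filter K := 𝓝[≠] x ⊓ 𝓟 A with hG
  obtain ⟨y, hy⟩ := exists_clusterPt_of_compactSpace (map φ G)
  have hGA : ∀ᶠ a in G, a ∈ A := mem_inf_of_right (mem_principal_self A)
  have hGx : G ≤ 𝓝 x := inf_le_left.trans nhdsWithin_le_nhds
  refine ⟨y, ?_, ?_⟩
  · rw [mem_derivedSet, accPt_iff_frequently]
    have h1 : ∀ᶠ a in G, φ a ≠ y := by
      have hfin := finite_sees hpos hc y
      have h2 : ∀ᶠ a in 𝓝[≠] x, a ∉ {x : K | Sees F c x y} := by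
        have h3 : ({x' : K | Sees F c x' y} \ {x})ᶜ ∈ 𝓝 x :=
          (hfin.subset sdiff_subset).isClosed.isOpen_compl.mem_nhds (by simp)
        rw [eventually_nhdsWithin_iff]
        filter_upwards [h3] with a ha hne h4
        exact ha ⟨h4, hne⟩
      have h5 : ∀ᶠ a in G, a ∉ {x : K | Sees F c x y} := h2.filter_mono inf_le_left
      filter_upwards [h5, hGA] with a h6 h7 h8
      apply h6
      rw [← h8]
      exact (hφA a h7).2
    have h9 : ∃ᶠ z in map φ G ⊓ 𝓝 y, z ≠ y ∧ z ∈ B := by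
      have : (map φ G ⊓ 𝓝 y).NeBot := by rw [inf_comm]; exact hy
      apply Eventually.frequently
      apply Eventually.filter_mono inf_le_left
      rw [eventually_map]
      filter_upwards [h1, hGA] with a h6 h7
      exact ⟨h6, (hφA a h7).1⟩
    exact h9.filter_mono inf_le_right
  · intro f hf hfx
    apply le_of_forall_pos_lt_add
    intro ε hε
    -- choose δ
    set δ : ℝ := min (1 / 2) (ε / (2 * c)) with hδ
    have hδ0 : 0 < δ := lt_min (by norm_num) (by positivity)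
    have hδ1 : δ < 1 := (min_le_left _ _).trans_lt (by norm_num)
    have hδc : δ * c ≤ ε / 2 := by
      have := min_le_right (1 / 2 : ℝ) (ε / (2 * c))
      calc δ * c ≤ ε / (2 * c) * c := mul_le_mul_of_nonneg_right this hc.le
        _ = ε / 2 := by field_simp
    have h1 : ∀ᶠ a in G, 1 - δ < f a := by
      have h2 : ∀ᶠ a in 𝓝 x, 1 - δ < f a :=
        (f.continuous.tendsto x).eventually (lt_mem_nhds (by linarith))
      exact hGx h2
    have h3 : ∀ᶠ a in G, (1 - δ) * c ≤ F f (φ a) := by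
      filter_upwards [h1, hGA] with a h4 h5
      have h6 := (hφA a h5).2 ((1 - δ)⁻¹ • f) (smul_nonneg (inv_nonneg.2 (by linarith)) hf) (by
        rw [ContinuousMap.smul_apply, smul_eq_mul, inv_mul_eq_div, le_div_iff₀ (by linarith)]
        linarith)
      rw [map_smul, ContinuousMap.smul_apply, smul_eq_mul, inv_mul_eq_div,
        le_div_iff₀ (by linarith)] at h6
      linarith
    have h7 : (1 - δ) * c ≤ F f y := by
      have hcl : IsClosed {z : L | (1 - δ) * c ≤ F f z} :=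
        isClosed_le continuous_const (F f).continuous
      have h8 : ∀ᶠ z in map φ G, z ∈ {z : L | (1 - δ) * c ≤ F f z} := h3
      have h9 : y ∈ closure {z : L | (1 - δ) * c ≤ F f z} :=
        mem_closure_iff_clusterPt.2 (hy.mono (le_principal_iff.2 h8))
      rwa [hcl.closure_eq] at h9
    linarith

theorem sees_all (hpos : ∀ f, 0 ≤ f → 0 ≤ F f) (hC : 0 < C) (hlow : ∀ f, ‖f‖ ≤ C * ‖F f‖) :
    ∀ (n : ℕ), ∀ x ∈ cbn K n, ∃ y ∈ cbn L n, Sees F C⁻¹ x y := by
  intro n
  induction n with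
  | zero =>
    intro x _
    obtain ⟨y, hy⟩ := exists_sees hpos hC hlow x
    exact ⟨y, mem_univ _, hy⟩
  | succ n ih =>
    intro x hx
    exact step hpos (inv_pos.2 hC) ih hx

/-- positive maps are bounded, and bijective ones are bounded below -/
theorem bounds (hpos : ∀ f, 0 ≤ f → 0 ≤ F f) (hbij : Function.Bijective F) :
    ∃ C : ℝ, 0 < C ∧ ∀ f, ‖f‖ ≤ C * ‖F f‖ := by
  have hb : ∀ f, ‖F f‖ ≤ ‖F 1‖ * ‖f‖ := by
    intro f
    rw [ContinuousMap.norm_le _ (by positivity)]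
    intro z
    have h1 : f ≤ ‖f‖ • (1 : C(K, ℝ)) := by
      rw [ContinuousMap.le_def]
      intro x
      rw [ContinuousMap.smul_apply, ContinuousMap.one_apply, smul_eq_mul, mul_one]
      exact (le_abs_self _).trans (f.norm_coe_le_norm x)
    have h2 : -(‖f‖ • (1 : C(K, ℝ))) ≤ f := by
      rw [ContinuousMap.le_def]
      intro x
      rw [ContinuousMap.neg_apply, ContinuousMap.smul_apply, ContinuousMap.one_apply, smul_eq_mul,
        mul_one]
      exact neg_le_of_abs_le (f.norm_coe_le_norm x)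
    have h3 := ContinuousMap.le_def.1 (mono_of hpos h1) z
    have h4 := ContinuousMap.le_def.1 (mono_of hpos h2) z
    rw [map_smul, ContinuousMap.smul_apply, smul_eq_mul] at h3
    rw [map_neg, map_smul, ContinuousMap.neg_apply, ContinuousMap.smul_apply, smul_eq_mul] at h4
    have h5 : F 1 z ≤ ‖F 1‖ := (le_abs_self _).trans ((F 1).norm_coe_le_norm z)
    rw [Real.norm_eq_abs, abs_le]
    constructor <;> nlinarith [norm_nonneg f]
  set F' : C(K, ℝ) →L[ℝ] C(L, ℝ) := F.mkContinuous ‖F 1‖ hb with hF'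
  have hker : F'.ker = ⊥ := by
    rw [LinearMap.ker_eq_bot]
    exact hbij.1
  have hran : F'.range = ⊤ := by
    rw [LinearMap.range_eq_top]
    exact hbij.2
  set e := ContinuousLinearEquiv.ofBijective F' hker hran with he
  refine ⟨‖(e.symm : C(L, ℝ) →L[ℝ] C(K, ℝ))‖ + 1, by positivity, fun f => ?_⟩
  have h1 := (e.symm : C(L, ℝ) →L[ℝ] C(K, ℝ)).le_opNorm (e f)
  have h2 : (e.symm : C(L, ℝ) →L[ℝ] C(K, ℝ)) (e f) = f := e.symm_apply_apply f
  rw [h2] at h1
  have h3 : e f = F f := rfl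
  rw [h3] at h1
  nlinarith [norm_nonneg (F f)]

/-- the heights cannot drop -/
theorem nonempty_of (hpos : ∀ f, 0 ≤ f → 0 ≤ F f) (hbij : Function.Bijective F) (n : ℕ)
    (h : (cbn K n).Nonempty) : (cbn L n).Nonempty := by
  obtain ⟨C, hC, hlow⟩ := bounds hpos hbij
  obtain ⟨x, hx⟩ := h
  obtain ⟨y, hy, -⟩ := sees_all hpos hC hlow n x hx
  exact ⟨y, hy⟩

end Pool.Agent.Y767.HT
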